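import Mathlib

/-!
# The recurrence x_{n+1} = 1/(B_n x_n + x_{n-1}) at large scale

Index convention: `x 0 = x_{-1}`, `x 1 = x_0`, so `x (n+2) = 1/(B n * x (n+1) + x n)`.
-/

namespace Pool.Agent.X29.RB

/-- `H b u v = 1/(b/v + 1/u)`. -/
noncomputable def H (b u v : ℝ) : ℝ := if b = 0 then u else u * v / (b * u + v)

/-- The homogeneous limit of the recurrence at large scale: a large value `x` is represented by
the positive number `x`, a small value `x` by the negative number `-1/x`. -/
noncomputable def G (b p q : ℝ) : ℝ :=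
  H b (max (-p) 0) (max (-q) 0) - (b * max q 0 + max p 0)

/-- Positive solutions (index shifted by one). -/
def Sol (B x : ℕ → ℝ) : Prop :=
  0 < x 0 ∧ 0 < x 1 ∧ ∀ n, x (n + 2) = 1 / (B n * x (n + 1) + x n)

lemma H_nonneg {b u v : ℝ} (hb : 0 ≤ b) (hu : 0 ≤ u) (hv : 0 ≤ v) : 0 ≤ H b u v := by
  unfold H
  split_ifs
  · exact hu
  · positivity

lemma H_ray {b l v : ℝ} (hb : 0 ≤ b) (hl : 0 ≤ l) (hv : 0 ≤ v) :
    H b (l * v) v = l / (1 + b * l) * v := by
  unfold H
  split_ifs with h
  · subst h; simp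
  · rcases hv.eq_or_lt with h0 | h0
    · rw [← h0]; simp
    · have h1 : 0 < 1 + b * l := by positivity
      have h2 : 0 < b * (l * v) + v := by positivity
      field_simp
      ring

lemma H_pos {b u v : ℝ} (hb : 0 ≤ b) (hu : 0 < u) (hv : 0 < v) : 0 < H b u v := by
  unfold H
  split_ifs
  · exact hu
  · positivity

lemma H_inv {b p q : ℝ} (hb : 0 ≤ b) (hp : 0 < p) (hq : 0 < q) :
    H b p⁻¹ q⁻¹ = 1 / (b * q + p) := by
  unfold H
  split_ifs with h
  · subst h; simp
  · have h1 : 0 < b * q + p := by positivity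
    have h2 : 0 < b * p⁻¹ + q⁻¹ := by positivity
    field_simp

lemma H_zero_left {b v : ℝ} : H b 0 v = 0 := by
  unfold H
  split_ifs <;> simp

lemma H_zero_right {b u : ℝ} (hb : b ≠ 0) : H b u 0 = 0 := by
  unfold H
  simp [hb]

lemma H_zero {u v : ℝ} : H 0 u v = u := by
  unfold H
  simp

/-- Lipschitz in the first variable, and monotone. -/
lemma H_left {b u u' v : ℝ} (hb : 0 ≤ b) (hu : 0 ≤ u) (huu : u ≤ u') (hv : 0 ≤ v) :
    H b u v ≤ H b u' v ∧ H b u' v ≤ H b u v + (u' - u) := by
  unfold H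
  split_ifs with h
  · constructor <;> linarith
  · have hb' : 0 < b := lt_of_le_of_ne hb (Ne.symm h)
    rcases hv.eq_or_lt with h0 | h0
    · rw [← h0]; simp; exact huu
    · have h1 : 0 < b * u + v := by positivity
      have h2 : 0 < b * u' + v := by nlinarith
      have key : u' * v / (b * u' + v) - u * v / (b * u + v)
          = v * v / ((b * u + v) * (b * u' + v)) * (u' - u) := by
        rw [div_sub_div _ _ h2.ne' h1.ne', div_mul_eq_mul_div, div_eq_div_iff (by positivity)
          (by positivity)]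
        ring
      have h3 : 0 ≤ v * v / ((b * u + v) * (b * u' + v)) := by positivity
      have h4 : v * v / ((b * u + v) * (b * u' + v)) ≤ 1 := by
        rw [div_le_one (by positivity)]
        apply mul_le_mul <;> nlinarith
      have h5 : 0 ≤ u' - u := by linarith
      constructor
      · nlinarith
      · nlinarith

lemma H_right {b u v v' : ℝ} (hb : 0 ≤ b) (hu : 0 ≤ u) (hv : 0 ≤ v) (hvv : v ≤ v') :
    H b u v ≤ H b u v' ∧ H b u v' ≤ H b u v + b⁻¹ * (v' - v) := by
  unfold H
  split_ifs with h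
  · subst h; simp
  · have hb' : 0 < b := lt_of_le_of_ne hb (Ne.symm h)
    rcases hu.eq_or_lt with h0 | h0
    · rw [← h0]; simp
      have : 0 ≤ b⁻¹ * (v' - v) := by
        have : 0 ≤ v' - v := by linarith
        positivity
      linarith
    · have h1 : 0 < b * u + v := by positivity
      have h2 : 0 < b * u + v' := by nlinarith
      have key : u * v' / (b * u + v') - u * v / (b * u + v)
          = b * (u * u) / ((b * u + v) * (b * u + v')) * (v' - v) := by
        rw [div_sub_div _ _ h2.ne' h1.ne', div_mul_eq_mul_div, div_eq_div_iff (by positivity)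
          (by positivity)]
        ring
      have h3 : 0 ≤ b * (u * u) / ((b * u + v) * (b * u + v')) := by positivity
      have h4 : b * (u * u) / ((b * u + v) * (b * u + v')) ≤ b⁻¹ := by
        rw [div_le_iff₀ (by positivity), ← div_eq_inv_mul, le_div_iff₀ hb']
        nlinarith [mul_nonneg hu hv, mul_nonneg hu (hv.trans hvv), mul_nonneg hv (hv.trans hvv),
          mul_nonneg hb (mul_nonneg hu hv), mul_nonneg hb (mul_nonneg hu (hv.trans hvv))]
      have h5 : 0 ≤ v' - v := by linarith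
      constructor
      · nlinarith
      · nlinarith

lemma H_mono {b u u' v v' : ℝ} (hb : 0 ≤ b) (hu : 0 ≤ u) (huu : u ≤ u') (hv : 0 ≤ v)
    (hvv : v ≤ v') : H b u v ≤ H b u' v' :=
  (H_left hb hu huu hv).1.trans (H_right hb (hu.trans huu) hv hvv).1

lemma H_lip {b u u' v v' : ℝ} (hb : 0 ≤ b) (hu : 0 ≤ u) (hu' : 0 ≤ u') (hv : 0 ≤ v)
    (hv' : 0 ≤ v') : |H b u v - H b u' v'| ≤ |u - u'| + b⁻¹ * |v - v'| := by
  have e1 : |H b u v - H b u' v| ≤ |u - u'| := by
    rcases le_total u u' with h | h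
    · have := H_left hb hu h hv
      rw [abs_sub_comm, abs_of_nonneg (by linarith), abs_sub_comm, abs_of_nonneg (by linarith)]
      linarith
    · have := H_left hb hu' h hv
      rw [abs_of_nonneg (by linarith), abs_of_nonneg (by linarith)]
      linarith
  have e2 : |H b u' v - H b u' v'| ≤ b⁻¹ * |v - v'| := by
    rcases le_total v v' with h | h
    · have := H_right hb hu' hv h
      rw [abs_sub_comm, abs_of_nonneg (by linarith), abs_sub_comm v, abs_of_nonneg (by linarith)]
      linarith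
    · have := H_right hb hu' hv' h
      rw [abs_of_nonneg (by linarith), abs_of_nonneg (by linarith)]
      linarith
  calc |H b u v - H b u' v'| = |(H b u v - H b u' v) + (H b u' v - H b u' v')| := by ring_nf
    _ ≤ _ := abs_add_le _ _
    _ ≤ _ := add_le_add e1 e2

lemma abs_max_sub (a b : ℝ) : |max a 0 - max b 0| ≤ |a - b| :=
  abs_max_sub_max_le_abs a b 0

lemma G_lip {b p q p' q' : ℝ} (hb : 0 ≤ b) :
    |G b p q - G b p' q'| ≤ 2 * |p - p'| + (b + b⁻¹) * |q - q'| := by
  unfold G
  have h1 := H_lip (b := b) (u := max (-p) 0) (u' := max (-p') 0) (v := max (-q) 0)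
    (v' := max (-q') 0) hb (le_max_right _ _) (le_max_right _ _) (le_max_right _ _)
    (le_max_right _ _)
  have h2 := abs_max_sub (-p) (-p')
  have h3 := abs_max_sub (-q) (-q')
  have h4 := abs_max_sub p p'
  have h5 := abs_max_sub q q'
  have h2' : |-p - -p'| = |p - p'| := by rw [← abs_neg]; ring_nf
  have h3' : |-q - -q'| = |q - q'| := by rw [← abs_neg]; ring_nf
  rw [h2'] at h2
  rw [h3'] at h3
  have hbi : 0 ≤ b⁻¹ := inv_nonneg.mpr hb
  calc |H b (max (-p) 0) (max (-q) 0) - (b * max q 0 + max p 0) -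
        (H b (max (-p') 0) (max (-q') 0) - (b * max q' 0 + max p' 0))|
      = |(H b (max (-p) 0) (max (-q) 0) - H b (max (-p') 0) (max (-q') 0))
        + (-(b * (max q 0 - max q' 0)) + -(max p 0 - max p' 0))| := by ring_nf
    _ ≤ |H b (max (-p) 0) (max (-q) 0) - H b (max (-p') 0) (max (-q') 0)|
        + |-(b * (max q 0 - max q' 0)) + -(max p 0 - max p' 0)| := abs_add_le _ _
    _ ≤ |H b (max (-p) 0) (max (-q) 0) - H b (max (-p') 0) (max (-q') 0)|
        + (|-(b * (max q 0 - max q' 0))| + |-(max p 0 - max p' 0)|) := by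
        gcongr; exact abs_add_le _ _
    _ = |H b (max (-p) 0) (max (-q) 0) - H b (max (-p') 0) (max (-q') 0)|
        + (b * |max q 0 - max q' 0| + |max p 0 - max p' 0|) := by
        rw [abs_neg, abs_neg, abs_mul, abs_of_nonneg hb]
    _ ≤ (|p - p'| + b⁻¹ * |q - q'|) + (b * |q - q'| + |p - p'|) := by
        have := mul_le_mul_of_nonneg_left h3 hbi
        have := mul_le_mul_of_nonneg_left h5 hb
        linarith
    _ = _ := by ring

lemma H_smul {b u v t : ℝ} (ht : 0 ≤ t) : H b (t * u) (t * v) = t * H b u v := by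
  unfold H
  split_ifs
  · rfl
  · rcases ht.eq_or_lt with h | h
    · rw [← h]; simp
    · have : b * (t * u) + t * v = t * (b * u + v) := by ring
      rw [this]
      rw [show t * u * (t * v) = t * (t * (u * v)) by ring, mul_div_mul_left _ _ h.ne', mul_div_assoc]

lemma G_smul {b p q t : ℝ} (ht : 0 ≤ t) : G b (t * p) (t * q) = t * G b p q := by
  unfold G
  have h : ∀ a : ℝ, max (t * a) 0 = t * max a 0 := by
    intro a
    rw [mul_max_of_nonneg _ _ ht, mul_zero]
  rw [show -(t * p) = t * (-p) by ring, show -(t * q) = t * (-q) by ring, h, h, h, h, H_smul ht]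
  ring

lemma Sol.pos {B x : ℕ → ℝ} (hB : ∀ n, 0 ≤ B n) (h : Sol B x) : ∀ n, 0 < x n := by
  have : ∀ n, 0 < x n ∧ 0 < x (n + 1) := by
    intro n
    induction n with
    | zero => exact ⟨h.1, h.2.1⟩
    | succ n ih =>
      refine ⟨ih.2, ?_⟩
      rw [show n + 1 + 1 = n + 2 by ring, h.2.2 n]
      have := hB n
      have h1 := ih.1
      have h2 := ih.2
      positivity
  exact fun n => (this n).1

/-- The coordinate: `x - 1/x`. -/
noncomputable def phi (x : ℝ) : ℝ := x - x⁻¹

lemma phi_pos_part {x : ℝ} (hx : 0 < x) : |max (phi x) 0 - x| ≤ 1 := by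
  unfold phi
  have hi : 0 < x⁻¹ := by positivity
  have hm : x * x⁻¹ = 1 := mul_inv_cancel₀ hx.ne'
  rcases le_total 1 x with h | h
  · have : x⁻¹ ≤ 1 := inv_le_one_of_one_le₀ h
    rw [max_eq_left (by linarith), show x - x⁻¹ - x = -x⁻¹ by ring, abs_neg, abs_of_pos hi]
    exact this
  · have : 1 ≤ x⁻¹ := (one_le_inv₀ hx).mpr h
    rw [max_eq_right (by linarith), zero_sub, abs_neg, abs_of_pos hx]
    exact h

lemma phi_neg_part {x : ℝ} (hx : 0 < x) : |max (-phi x) 0 - x⁻¹| ≤ 1 := by
  have h := phi_pos_part (x := x⁻¹) (by positivity)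
  have : -phi x = phi x⁻¹ := by unfold phi; rw [inv_inv]; ring
  rw [this]
  exact h

/-- The recurrence is a bounded perturbation of its homogeneous limit. -/
lemma err {b p q : ℝ} (hb : 0 ≤ b) (hp : 0 < p) (hq : 0 < q) :
    |phi (1 / (b * q + p)) - G b (phi p) (phi q)| ≤ 2 + b + b⁻¹ := by
  have hbi : 0 ≤ b⁻¹ := inv_nonneg.mpr hb
  have e1 : phi (1 / (b * q + p)) = H b p⁻¹ q⁻¹ - (b * q + p) := by
    rw [H_inv hb hp hq]
    unfold phi
    rw [one_div, inv_inv]
  rw [e1]
  unfold G
  have h1 := H_lip (b := b) (u := p⁻¹) (u' := max (-phi p) 0) (v := q⁻¹)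
    (v' := max (-phi q) 0) hb (by positivity) (le_max_right _ _) (by positivity)
    (le_max_right _ _)
  have h2 := phi_neg_part hp
  have h3 := phi_neg_part hq
  have h4 := phi_pos_part hp
  have h5 := phi_pos_part hq
  rw [abs_sub_comm] at h2 h3
  have h6 : b⁻¹ * |q⁻¹ - max (-phi q) 0| ≤ b⁻¹ := by nlinarith
  have h7 : |b * (max (phi q) 0 - q)| ≤ b := by rw [abs_mul, abs_of_nonneg hb]; nlinarith
  have h8 : |H b p⁻¹ q⁻¹ - H b (max (-phi p) 0) (max (-phi q) 0)| ≤ 1 + b⁻¹ := by linarith
  rw [abs_le] at h8 h4 h7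
  rw [abs_le]
  constructor
  · linarith [h8.1, h8.2, h4.1, h4.2, h7.1, h7.2]
  · linarith [h8.1, h8.2, h4.1, h4.2, h7.1, h7.2]

end Pool.Agent.X29.RB
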