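import Pool.Agent.X29.RB.Basic

namespace Pool.Agent.X29.RB

/-- Orbits of the homogeneous system, started at position `n`. -/
noncomputable def Y (B : ℕ → ℝ) (n : ℕ) (ξ : ℝ × ℝ) : ℕ → ℝ × ℝ
  | 0 => ξ
  | j + 1 => ((Y B n ξ j).2, G (B (n + j)) (Y B n ξ j).1 (Y B n ξ j).2)

lemma Y_smul (B : ℕ → ℝ) (n : ℕ) (ξ : ℝ × ℝ) {t : ℝ} (ht : 0 ≤ t) (j : ℕ) :
    Y B n (t • ξ) j = t • Y B n ξ j := by
  induction j with
  | zero => rfl
  | succ j ih =>
    simp only [Y, ih, Prod.smul_fst, Prod.smul_snd, smul_eq_mul, G_smul ht, Prod.smul_mk]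

lemma norm_fst (ξ : ℝ × ℝ) : |ξ.1| ≤ ‖ξ‖ := by
  rw [Prod.norm_def]; exact le_max_left _ _

lemma norm_snd (ξ : ℝ × ℝ) : |ξ.2| ≤ ‖ξ‖ := by
  rw [Prod.norm_def]; exact le_max_right _ _

lemma Y_lip {B : ℕ → ℝ} (hB : ∀ n, 0 ≤ B n) {L : ℝ} (hL : ∀ n, 2 + (B n + (B n)⁻¹) ≤ L) (n : ℕ)
    (ξ η : ℝ × ℝ) (j : ℕ) : ‖Y B n ξ j - Y B n η j‖ ≤ L ^ j * ‖ξ - η‖ := by
  have hL1 : 1 ≤ L := by
    have h1 := hB 0
    have h2 : 0 ≤ (B 0)⁻¹ := inv_nonneg.mpr h1
    linarith [hL 0]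
  induction j with
  | zero => simp [Y]
  | succ j ih =>
    have hb := hB (n + j)
    have hbi : 0 ≤ (B (n + j))⁻¹ := inv_nonneg.mpr hb
    set P := Y B n ξ j with hP
    set Q := Y B n η j with hQ
    have e1 : ‖((P.2, G (B (n + j)) P.1 P.2) : ℝ × ℝ) - (Q.2, G (B (n + j)) Q.1 Q.2)‖
        ≤ L * ‖P - Q‖ := by
      rw [Prod.norm_def]
      have a1 : |P.1 - Q.1| ≤ ‖P - Q‖ := norm_fst (P - Q)
      have a2 : |P.2 - Q.2| ≤ ‖P - Q‖ := norm_snd (P - Q)
      have a0 : 0 ≤ ‖P - Q‖ := norm_nonneg _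
      apply max_le
      · change |P.2 - Q.2| ≤ _
        nlinarith
      · change |G (B (n + j)) P.1 P.2 - G (B (n + j)) Q.1 Q.2| ≤ _
        have := G_lip (b := B (n + j)) (p := P.1) (q := P.2) (p' := Q.1) (q' := Q.2) hb
        have h3 : (B (n + j) + (B (n + j))⁻¹) * |P.2 - Q.2|
            ≤ (B (n + j) + (B (n + j))⁻¹) * ‖P - Q‖ :=
          mul_le_mul_of_nonneg_left a2 (by positivity)
        have h4 := mul_le_mul_of_nonneg_right (hL (n + j)) a0
        nlinarith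
    calc ‖Y B n ξ (j + 1) - Y B n η (j + 1)‖ ≤ L * ‖P - Q‖ := e1
      _ ≤ L * (L ^ j * ‖ξ - η‖) := mul_le_mul_of_nonneg_left ih (by linarith)
      _ = _ := by ring

lemma Y_zero (B : ℕ → ℝ) (n j : ℕ) : Y B n 0 j = 0 := by
  have := Y_smul B n (0 : ℝ × ℝ) (le_refl (0 : ℝ)) j
  simpa using this

lemma Y_cont {B : ℕ → ℝ} (hB : ∀ n, 0 ≤ B n) {L : ℝ} (hL : ∀ n, 2 + (B n + (B n)⁻¹) ≤ L) (n : ℕ)
    (j : ℕ) : Continuous (fun ξ => Y B n ξ j) := by
  have hL1 : 0 ≤ L := by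
    have h1 := hB 0
    have h2 : 0 ≤ (B 0)⁻¹ := inv_nonneg.mpr h1
    linarith [hL 0]
  have : LipschitzWith (Real.toNNReal (L ^ j)) (fun ξ => Y B n ξ j) := by
    apply LipschitzWith.of_dist_le_mul
    intro ξ η
    rw [dist_eq_norm, dist_eq_norm, Real.coe_toNNReal _ (by positivity)]
    exact Y_lip hB hL n ξ η j
  exact this.continuous

lemma Y_per {B : ℕ → ℝ} {k : ℕ} (hper : ∀ n, B (n + k) = B n) (n : ℕ) (ξ : ℝ × ℝ) (j : ℕ) :
    Y B (n + k) ξ j = Y B n ξ j := by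
  induction j with
  | zero => rfl
  | succ j ih =>
    simp only [Y, ih]
    rw [show n + k + j = n + j + k by ring, hper]

lemma Y_mod {B : ℕ → ℝ} {k : ℕ} (hper : ∀ n, B (n + k) = B n) (n : ℕ) (ξ : ℝ × ℝ) (j : ℕ) :
    Y B n ξ j = Y B (n % k) ξ j := by
  have : ∀ t m, Y B (m + k * t) ξ j = Y B m ξ j := by
    intro t
    induction t with
    | zero => intro m; simp
    | succ t ih =>
      intro m
      rw [show m + k * (t + 1) = m + k * t + k by ring, Y_per hper, ih]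
  conv_lhs => rw [← Nat.mod_add_div n k]
  exact this _ _

/-- The state of the true system in the coordinates `x - 1/x`. -/
noncomputable def X (x : ℕ → ℝ) (m : ℕ) : ℝ × ℝ := (phi (x m), phi (x (m + 1)))

lemma X_err {B : ℕ → ℝ} (hB : ∀ n, 0 ≤ B n) {L : ℝ} (hL : ∀ n, 2 + (B n + (B n)⁻¹) ≤ L)
    {x : ℕ → ℝ} (hx : Sol B x) (n j : ℕ) :
    ‖X x (n + j) - Y B n (X x n) j‖ ≤ j * L ^ j := by
  have hL1 : 1 ≤ L := by
    have h1 := hB 0
    have h2 : 0 ≤ (B 0)⁻¹ := inv_nonneg.mpr h1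
    linarith [hL 0]
  induction j with
  | zero => simp [Y]
  | succ j ih =>
    have hb := hB (n + j)
    have hbi : 0 ≤ (B (n + j))⁻¹ := inv_nonneg.mpr hb
    set P := X x (n + j) with hP
    set Q := Y B n (X x n) j with hQ
    have hpos := hx.pos hB
    have e0 : |phi (x (n + j + 2)) - G (B (n + j)) P.1 P.2| ≤ L := by
      rw [hx.2.2 (n + j)]
      have := err (b := B (n + j)) (p := x (n + j)) (q := x (n + j + 1)) hb (hpos _) (hpos _)
      have h2 := hL (n + j)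
      refine this.trans (by linarith)
    have a1 : |P.1 - Q.1| ≤ ‖P - Q‖ := norm_fst (P - Q)
    have a2 : |P.2 - Q.2| ≤ ‖P - Q‖ := norm_snd (P - Q)
    have a0 : 0 ≤ ‖P - Q‖ := norm_nonneg _
    have e1 : |G (B (n + j)) P.1 P.2 - G (B (n + j)) Q.1 Q.2| ≤ L * ‖P - Q‖ := by
      have := G_lip (b := B (n + j)) (p := P.1) (q := P.2) (p' := Q.1) (q' := Q.2) hb
      have h3 : (B (n + j) + (B (n + j))⁻¹) * |P.2 - Q.2|
          ≤ (B (n + j) + (B (n + j))⁻¹) * ‖P - Q‖ :=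
        mul_le_mul_of_nonneg_left a2 (by positivity)
      have h4 := mul_le_mul_of_nonneg_right (hL (n + j)) a0
      nlinarith
    have e2 : |phi (x (n + j + 2)) - G (B (n + j)) Q.1 Q.2| ≤ L + L * ‖P - Q‖ := by
      calc _ = |(phi (x (n + j + 2)) - G (B (n + j)) P.1 P.2)
            + (G (B (n + j)) P.1 P.2 - G (B (n + j)) Q.1 Q.2)| := by ring_nf
        _ ≤ _ := abs_add_le _ _
        _ ≤ _ := add_le_add e0 e1
    have e3 : ‖X x (n + (j + 1)) - Y B n (X x n) (j + 1)‖ ≤ L + L * ‖P - Q‖ := by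
      rw [Prod.norm_def]
      apply max_le
      · change |P.2 - Q.2| ≤ _
        nlinarith
      · change |phi (x (n + j + 2)) - G (B (n + j)) Q.1 Q.2| ≤ _
        exact e2
    have hpow : 1 ≤ L ^ j := one_le_pow₀ hL1
    calc _ ≤ L + L * ‖P - Q‖ := e3
      _ ≤ L + L * (j * L ^ j) := by
        have := mul_le_mul_of_nonneg_left ih (show (0 : ℝ) ≤ L by linarith)
        linarith
      _ ≤ ((j + 1 : ℕ) : ℝ) * L ^ (j + 1) := by
        push_cast
        rw [pow_succ]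
        nlinarith

/-- If every orbit of the homogeneous system becomes small, every positive solution is bounded. -/
theorem bounded_of_contract {B : ℕ → ℝ} (hB : ∀ n, 0 ≤ B n) {k : ℕ} (hk : 0 < k)
    (hper : ∀ n, B (n + k) = B n)
    (hpt : ∀ (n : ℕ) (ξ : ℝ × ℝ), ∃ j, ‖Y B n ξ j‖ < 1 / 2)
    {x : ℕ → ℝ} (hx : Sol B x) : ∃ M, ∀ n, x n ≤ M := by
  -- a Lipschitz constant
  have hBmod : ∀ n, B n = B (n % k) := by
    have : ∀ t m, B (m + k * t) = B m := by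
      intro t
      induction t with
      | zero => intro m; simp
      | succ t ih =>
        intro m
        rw [show m + k * (t + 1) = m + k * t + k by ring, hper, ih]
    intro n
    conv_lhs => rw [← Nat.mod_add_div n k]
    exact this _ _
  obtain ⟨L, hL⟩ : ∃ L : ℝ, ∀ n, 2 + (B n + (B n)⁻¹) ≤ L := by
    obtain ⟨L, hL⟩ := ((Finset.range k).image (fun n => 2 + (B n + (B n)⁻¹))).bddAbove
    refine ⟨L, fun n => ?_⟩
    rw [hBmod n]
    apply hL
    simp only [Finset.coe_image, Finset.coe_range, Set.mem_image, Set.mem_Iio]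
    exact ⟨n % k, Nat.mod_lt _ hk, rfl⟩
  have hL1 : 1 ≤ L := by
    have h1 := hB 0
    have h2 : 0 ≤ (B 0)⁻¹ := inv_nonneg.mpr h1
    linarith [hL 0]
  -- compactness
  have hcomp : ∀ n, ∃ J : ℕ, ∀ ξ : ℝ × ℝ, ‖ξ‖ = 1 → ∃ j ≤ J, ‖Y B n ξ j‖ < 1 / 2 := by
    intro n
    have hK : IsCompact (Metric.sphere (0 : ℝ × ℝ) 1) := isCompact_sphere _ _
    obtain ⟨t, ht⟩ := hK.elim_finite_subcover (fun j => {ξ : ℝ × ℝ | ‖Y B n ξ j‖ < 1 / 2})
      (fun j => isOpen_lt (Y_cont hB hL n j).norm continuous_const)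
      (by
        intro ξ _
        obtain ⟨j, hj⟩ := hpt n ξ
        exact Set.mem_iUnion.mpr ⟨j, hj⟩)
    refine ⟨t.sup id, fun ξ hξ => ?_⟩
    have := ht (show ξ ∈ Metric.sphere (0 : ℝ × ℝ) 1 by simpa using hξ)
    simp only [Set.mem_iUnion] at this
    obtain ⟨j, hj, hj2⟩ := this
    exact ⟨j, Finset.le_sup (f := id) hj, hj2⟩
  choose Jf hJf using hcomp
  obtain ⟨J, hJ⟩ : ∃ J : ℕ, ∀ n < k, Jf n ≤ J :=
    ⟨(Finset.range k).sup Jf, fun n hn => Finset.le_sup (Finset.mem_range.mpr hn)⟩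
  have hcon : ∀ n (ξ : ℝ × ℝ), ∃ j, 1 ≤ j ∧ j ≤ J + 1 ∧ ‖Y B n ξ j‖ ≤ 1 / 2 * ‖ξ‖ := by
    intro n ξ
    by_cases hξ : ξ = 0
    · subst hξ
      refine ⟨1, le_rfl, by omega, ?_⟩
      rw [Y_zero]; simp
    · have hn : 0 < ‖ξ‖ := norm_pos_iff.mpr hξ
      obtain ⟨j, hj, hj2⟩ := hJf (n % k) (‖ξ‖⁻¹ • ξ) (by
        rw [norm_smul, norm_inv, norm_norm, inv_mul_cancel₀ hn.ne'])
      have hj0 : j ≠ 0 := by
        rintro rfl
        simp only [Y] at hj2
        rw [norm_smul, norm_inv, norm_norm, inv_mul_cancel₀ hn.ne'] at hj2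
        norm_num at hj2
      refine ⟨j, by omega, (hj.trans (hJ _ (Nat.mod_lt _ hk))).trans (by omega), ?_⟩
      rw [Y_smul _ _ _ (by positivity), norm_smul, norm_inv, norm_norm, ← Y_mod hper,
        inv_mul_lt_iff₀ hn] at hj2
      linarith
  set K : ℕ := J + 1 with hKdef
  set E : ℝ := K * L ^ K with hE
  have hE0 : 0 ≤ E := by positivity
  have hEj : ∀ j ≤ K, (j : ℝ) * L ^ j ≤ E := by
    intro j hj
    have h1 : (j : ℝ) ≤ K := by exact_mod_cast hj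
    have h2 : L ^ j ≤ L ^ K := pow_le_pow_right₀ hL1 hj
    exact mul_le_mul h1 h2 (by positivity) (by positivity)
  set R : ℝ := max ‖X x 0‖ (2 * E) with hR
  have hR0 : 0 ≤ R := (norm_nonneg _).trans (le_max_left _ _)
  have hR2 : 2 * E ≤ R := le_max_right _ _
  have claim : ∀ m, ∃ m' ≤ m, m < m' + K ∧ ‖X x m'‖ ≤ R := by
    intro m
    induction m with
    | zero => exact ⟨0, le_rfl, by omega, le_max_left _ _⟩
    | succ m ih =>
      obtain ⟨m', h1, h2, h3⟩ := ih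
      by_cases hc : m + 1 < m' + K
      · exact ⟨m', by omega, hc, h3⟩
      · obtain ⟨j, hj1, hj2, hj3⟩ := hcon m' (X x m')
        refine ⟨m' + j, by omega, by omega, ?_⟩
        have e1 := (X_err hB hL hx m' j).trans (hEj j hj2)
        calc ‖X x (m' + j)‖ = ‖(X x (m' + j) - Y B m' (X x m') j) + Y B m' (X x m') j‖ := by
              congr 1; abel
          _ ≤ _ := norm_add_le _ _
          _ ≤ E + 1 / 2 * R := by
              refine add_le_add e1 (hj3.trans ?_)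
              linarith
          _ ≤ R := by linarith
  refine ⟨E + L ^ K * R + 1, fun n => ?_⟩
  obtain ⟨m', h1, h2, h3⟩ := claim n
  obtain ⟨j, rfl⟩ := Nat.exists_eq_add_of_le h1
  have hj : j ≤ K := by omega
  have e1 := (X_err hB hL hx m' j).trans (hEj j hj)
  have e2 := Y_lip hB hL m' (X x m') 0 j
  rw [Y_zero, sub_zero, sub_zero] at e2
  have e3 : ‖X x (m' + j)‖ ≤ E + L ^ K * R := by
    calc ‖X x (m' + j)‖ = ‖(X x (m' + j) - Y B m' (X x m') j) + Y B m' (X x m') j‖ := by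
              congr 1; abel
      _ ≤ _ := norm_add_le _ _
      _ ≤ E + L ^ K * R := by
          refine add_le_add e1 (e2.trans ?_)
          exact mul_le_mul (pow_le_pow_right₀ hL1 hj) h3 (norm_nonneg _) (by positivity)
  have e4 : |phi (x (m' + j))| ≤ ‖X x (m' + j)‖ := norm_fst (X x (m' + j))
  have e5 := phi_pos_part (hx.pos hB (m' + j))
  have e6 : max (phi (x (m' + j))) 0 ≤ |phi (x (m' + j))| := max_le (le_abs_self _) (abs_nonneg _)
  have e7 := (abs_le.mp e5).1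
  linarith

end Pool.Agent.X29.RB
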