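import Pool.Agent.X29.RB.Walk

namespace Pool.Agent.X29.RB

lemma bound_B {B : ℕ → ℝ} {k : ℕ} (hk : 0 < k) (hper : ∀ n, B (n + k) = B n) :
    ∃ β : ℝ, 0 ≤ β ∧ ∀ n, B n ≤ β := by
  obtain ⟨L, hL⟩ := ((Finset.range k).image B).bddAbove
  refine ⟨max L 0, le_max_right _ _, fun n => ?_⟩
  have : B n = B (n % k) := by
    conv_lhs => rw [← Nat.mod_add_div n k]
    exact per_mul hper _ _
  rw [this]
  refine (hL ?_).trans (le_max_left _ _)
  simp only [Finset.coe_image, Finset.coe_range, Set.mem_image, Set.mem_Iio]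
  exact ⟨n % k, Nat.mod_lt _ hk, rfl⟩

lemma bdd_of_tail {x : ℕ → ℝ} (c : ℕ) (h : ∃ M, ∀ n, x (c + n) ≤ M) : ∃ M, ∀ n, x n ≤ M := by
  obtain ⟨M, hM⟩ := h
  obtain ⟨L, hL⟩ := ((Finset.range c).image x).bddAbove
  refine ⟨max L M, fun n => ?_⟩
  by_cases hn : n < c
  · refine (hL ?_).trans (le_max_left _ _)
    simp only [Finset.coe_image, Finset.coe_range, Set.mem_image, Set.mem_Iio]
    exact ⟨n, hn, rfl⟩
  · obtain ⟨r, rfl⟩ := Nat.exists_eq_add_of_le (not_lt.mp hn)
    exact (hM r).trans (le_max_right _ _)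

/-- A sequence with bounded increments and bounded values at an arithmetic progression. -/
lemma bdd_of_resets {f : ℕ → ℝ} {D E : ℝ} (hD : 0 ≤ D) {k i0 : ℕ} (hk : 0 < k)
    (h1 : ∀ i, f (i + 1) ≤ f i + D) (h2 : ∀ s, f (i0 + k * s) ≤ E) : ∃ M, ∀ n, f n ≤ M := by
  apply bdd_of_tail i0
  refine ⟨E + k * D, fun n => ?_⟩
  have h3 : ∀ i r, f (i + r) ≤ f i + r * D := by
    intro i r
    induction r with
    | zero => simp
    | succ r ih =>
      have := h1 (i + r)
      rw [show i + (r + 1) = i + r + 1 by ring]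
      push_cast
      linarith
  have h4 := h3 (i0 + k * (n / k)) (n % k)
  rw [show i0 + k * (n / k) + n % k = i0 + n by have := Nat.div_add_mod n k; omega] at h4
  have h5 : ((n % k : ℕ) : ℝ) ≤ k := by exact_mod_cast (Nat.mod_lt n hk).le
  have h6 := mul_le_mul_of_nonneg_right h5 hD
  linarith [h2 (n / k)]

/-- The coefficients vanish on a parity class: the recurrence decouples. -/
theorem bounded_parity {B : ℕ → ℝ} (hB : ∀ n, 0 ≤ B n) {k : ℕ} (hk : 0 < k)
    (hper : ∀ n, B (n + k) = B n) (c : ℕ) (hz : ∀ i, B (c + 2 * i) = 0)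
    (h1 : ∃ i, B (c + 1 + 4 * i) ≠ 0) (h3 : ∃ i, B (c + 3 + 4 * i) ≠ 0)
    {x : ℕ → ℝ} (hx : Sol B x) : ∃ M, ∀ n, x n ≤ M := by
  have hpos := hx.pos hB
  obtain ⟨β, hβ, hβ2⟩ := bound_B hk hper
  set α : ℝ := min (x c) (x c)⁻¹ with hα
  have hα0 : 0 < α := lt_min (hpos c) (inv_pos.mpr (hpos c))
  have hαi : α⁻¹ = max (x c)⁻¹ (x c) := by
    rcases le_total (x c) (x c)⁻¹ with h | h
    · rw [hα, min_eq_left h, max_eq_left h]
    · rw [hα, min_eq_right h, inv_inv, max_eq_right h]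
  have hev : ∀ i, x (c + 2 * i) = x c ∨ x (c + 2 * i) = (x c)⁻¹ := by
    intro i
    induction i with
    | zero => left; rfl
    | succ i ih =>
      have e : x (c + 2 * (i + 1)) = (x (c + 2 * i))⁻¹ := by
        rw [show c + 2 * (i + 1) = c + 2 * i + 2 by ring, hx.2.2, hz i]
        simp
      rcases ih with h | h
      · right; rw [e, h]
      · left; rw [e, h, inv_inv]
  have hlow : ∀ i, α ≤ x (c + 2 * i) := by
    intro i
    rcases hev i with h | h
    · rw [h]; exact min_le_left _ _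
    · rw [h]; exact min_le_right _ _
  have hup : ∀ i, x (c + 2 * i) ≤ α⁻¹ := by
    intro i
    rw [hαi]
    rcases hev i with h | h
    · rw [h]; exact le_max_right _ _
    · rw [h]; exact le_max_left _ _
  have hinc : ∀ i, x (c + 1 + 2 * i + 4) ≤ x (c + 1 + 2 * i) + β * α⁻¹ := by
    intro i
    have hb := hB (c + 1 + 2 * i)
    have hb2 := hB (c + 1 + 2 * i + 2)
    have p0 := hpos (c + 1 + 2 * i)
    have p1 := hpos (c + 1 + 2 * i + 1)
    have p2 := hpos (c + 1 + 2 * i + 2)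
    have p3 := hpos (c + 1 + 2 * i + 2 + 1)
    have e1 : (x (c + 1 + 2 * i + 2))⁻¹ = B (c + 1 + 2 * i) * x (c + 1 + 2 * i + 1)
        + x (c + 1 + 2 * i) := by rw [hx.2.2 (c + 1 + 2 * i), one_div, inv_inv]
    have e2 : x (c + 1 + 2 * i + 2 + 2) ≤ (x (c + 1 + 2 * i + 2))⁻¹ := by
      rw [hx.2.2 (c + 1 + 2 * i + 2), one_div]
      apply inv_anti₀ p2
      have : 0 ≤ B (c + 1 + 2 * i + 2) * x (c + 1 + 2 * i + 2 + 1) := by positivity
      linarith
    have e3 : x (c + 1 + 2 * i + 1) ≤ α⁻¹ := by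
      have := hup (i + 1)
      rwa [show c + 2 * (i + 1) = c + 1 + 2 * i + 1 by ring] at this
    have e4 : B (c + 1 + 2 * i) * x (c + 1 + 2 * i + 1) ≤ β * α⁻¹ :=
      mul_le_mul (hβ2 _) e3 p1.le hβ
    rw [show c + 1 + 2 * i + 4 = c + 1 + 2 * i + 2 + 2 by ring]
    linarith
  have hreset : ∀ i, B (c + 1 + 2 * i) ≠ 0 →
      x (c + 1 + 2 * i + 2) ≤ (B (c + 1 + 2 * i) * α)⁻¹ := by
    intro i hi
    have hb : 0 < B (c + 1 + 2 * i) := lt_of_le_of_ne (hB _) (Ne.symm hi)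
    have p0 := hpos (c + 1 + 2 * i)
    rw [hx.2.2 (c + 1 + 2 * i), one_div]
    apply inv_anti₀ (by positivity)
    have e3 : α ≤ x (c + 1 + 2 * i + 1) := by
      have := hlow (i + 1)
      rwa [show c + 2 * (i + 1) = c + 1 + 2 * i + 1 by ring] at this
    have := mul_le_mul_of_nonneg_left e3 hb.le
    linarith
  have hDn : 0 ≤ β * α⁻¹ := by positivity
  obtain ⟨i1, hi1⟩ := h1
  obtain ⟨i3, hi3⟩ := h3
  obtain ⟨M1, hM1⟩ := bdd_of_resets (f := fun i => x (c + 3 + 4 * i)) (D := β * α⁻¹)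
    (E := (B (c + 1 + 4 * i1) * α)⁻¹) hDn (k := k) (i0 := i1) hk (by
      intro i
      have := hinc (2 * i + 1)
      rw [show c + 1 + 2 * (2 * i + 1) + 4 = c + 3 + 4 * (i + 1) by ring,
        show c + 1 + 2 * (2 * i + 1) = c + 3 + 4 * i by ring] at this
      exact this) (by
      intro s
      have e : B (c + 1 + 2 * (2 * (i1 + k * s))) = B (c + 1 + 4 * i1) := by
        rw [show c + 1 + 2 * (2 * (i1 + k * s)) = c + 1 + 4 * i1 + k * (4 * s) by ring,
          per_mul hper]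
      have := hreset (2 * (i1 + k * s)) (by rw [e]; exact hi1)
      rw [e, show c + 1 + 2 * (2 * (i1 + k * s)) + 2 = c + 3 + 4 * (i1 + k * s) by ring] at this
      exact this)
  obtain ⟨M3, hM3⟩ := bdd_of_resets (f := fun i => x (c + 5 + 4 * i)) (D := β * α⁻¹)
    (E := (B (c + 3 + 4 * i3) * α)⁻¹) hDn (k := k) (i0 := i3) hk (by
      intro i
      have := hinc (2 * i + 2)
      rw [show c + 1 + 2 * (2 * i + 2) + 4 = c + 5 + 4 * (i + 1) by ring,
        show c + 1 + 2 * (2 * i + 2) = c + 5 + 4 * i by ring] at this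
      exact this) (by
      intro s
      have e : B (c + 1 + 2 * (2 * (i3 + k * s) + 1)) = B (c + 3 + 4 * i3) := by
        rw [show c + 1 + 2 * (2 * (i3 + k * s) + 1) = c + 3 + 4 * i3 + k * (4 * s) by ring,
          per_mul hper]
      have := hreset (2 * (i3 + k * s) + 1) (by rw [e]; exact hi3)
      rw [e, show c + 1 + 2 * (2 * (i3 + k * s) + 1) + 2 = c + 5 + 4 * (i3 + k * s) by ring]
        at this
      exact this)
  apply bdd_of_tail (c + 2)
  refine ⟨max α⁻¹ (max M1 M3), fun r => ?_⟩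
  rcases (show r % 4 = 0 ∨ r % 4 = 1 ∨ r % 4 = 2 ∨ r % 4 = 3 by omega) with h | h | h | h
  · have := hup (1 + r / 2)
    rw [show c + 2 * (1 + r / 2) = c + 2 + r by omega] at this
    exact this.trans (le_max_left _ _)
  · have := hM1 (r / 4)
    rw [show c + 3 + 4 * (r / 4) = c + 2 + r by omega] at this
    exact this.trans ((le_max_left _ _).trans (le_max_right _ _))
  · have := hup (1 + r / 2)
    rw [show c + 2 * (1 + r / 2) = c + 2 + r by omega] at this
    exact this.trans (le_max_left _ _)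
  · have := hM3 (r / 4)
    rw [show c + 5 + 4 * (r / 4) = c + 2 + r by omega] at this
    exact this.trans ((le_max_right _ _).trans (le_max_right _ _))

/-- Bounded solutions are bounded away from zero. -/
lemma lower {B : ℕ → ℝ} (hB : ∀ n, 0 ≤ B n) {k : ℕ} (hk : 0 < k)
    (hper : ∀ n, B (n + k) = B n) {x : ℕ → ℝ} (hx : Sol B x) {M : ℝ} (hM : ∀ n, x n ≤ M) :
    ∃ α, 0 < α ∧ ∀ n, α ≤ x n := by
  have hpos := hx.pos hB
  obtain ⟨β, hβ, hβ2⟩ := bound_B hk hper
  have hM0 : 0 < M := (hpos 0).trans_le (hM 0)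
  refine ⟨min (min (x 0) (x 1)) ((β * M + M)⁻¹), ?_, ?_⟩
  · have := hpos 0
    have := hpos 1
    refine lt_min (lt_min ?_ ?_) ?_ <;> positivity
  · intro n
    match n with
    | 0 => exact (min_le_left _ _).trans (min_le_left _ _)
    | 1 => exact (min_le_left _ _).trans (min_le_right _ _)
    | n + 2 =>
      refine (min_le_right _ _).trans ?_
      rw [hx.2.2 n, one_div]
      have p0 := hpos n
      have p1 := hpos (n + 1)
      have hb := hB n
      apply inv_anti₀ (by positivity)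
      have e1 : B n * x (n + 1) ≤ β * M := mul_le_mul (hβ2 _) (hM _) p1.le hβ
      linarith [hM n]

/-- Failure of (B). -/
theorem unbounded_B {B : ℕ → ℝ} (hB : ∀ n, 0 ≤ B n) {k : ℕ} (hk : 0 < k)
    (hper : ∀ n, B (n + k) = B n) (hcrit : ¬ CritB B) {x : ℕ → ℝ} (hx : Sol B x) :
    ¬ ∃ M, ∀ n, x n ≤ M := by
  rintro ⟨M, hM⟩
  obtain ⟨α, hα0, hα⟩ := lower hB hk hper hx hM
  have hpos := hx.pos hB
  unfold CritB at hcrit
  push Not at hcrit
  obtain ⟨c, hc, i0, hi0⟩ := hcrit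
  have hb0 : 0 < B (c + 2 + 4 * i0) := lt_of_le_of_ne (hB _) (Ne.symm hi0)
  have hstep : ∀ i, (x (c + 4 * i))⁻¹ + B (c + 2 + 4 * i) * α ≤ (x (c + 4 * (i + 1)))⁻¹ := by
    intro i
    have e1 : x (c + 4 * i + 2) = (x (c + 4 * i))⁻¹ := by
      rw [hx.2.2, hc i]; simp
    have e2 : (x (c + 4 * i + 2 + 2))⁻¹
        = B (c + 4 * i + 2) * x (c + 4 * i + 2 + 1) + x (c + 4 * i + 2) := by
      rw [hx.2.2 (c + 4 * i + 2), one_div, inv_inv]
    rw [show c + 4 * (i + 1) = c + 4 * i + 2 + 2 by ring, e2, e1,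
      show c + 2 + 4 * i = c + 4 * i + 2 by ring]
    have := mul_le_mul_of_nonneg_left (hα (c + 4 * i + 2 + 1)) (hB (c + 4 * i + 2))
    linarith
  have hmono : ∀ i r, (x (c + 4 * i))⁻¹ ≤ (x (c + 4 * (i + r)))⁻¹ := by
    intro i r
    induction r with
    | zero => exact le_rfl
    | succ r ih =>
      have h1 := hstep (i + r)
      have h2 := hB (c + 2 + 4 * (i + r))
      have h3 : 0 ≤ B (c + 2 + 4 * (i + r)) * α := by positivity
      rw [show i + (r + 1) = i + r + 1 by ring]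
      linarith
  have hgrow : ∀ s : ℕ, (s : ℝ) * (B (c + 2 + 4 * i0) * α) ≤ (x (c + 4 * (i0 + k * s)))⁻¹ := by
    intro s
    induction s with
    | zero =>
      have := hpos (c + 4 * (i0 + k * 0))
      simp only [Nat.cast_zero, zero_mul]
      positivity
    | succ s ih =>
      have h1 := hstep (i0 + k * s)
      have e : B (c + 2 + 4 * (i0 + k * s)) = B (c + 2 + 4 * i0) := by
        rw [show c + 2 + 4 * (i0 + k * s) = c + 2 + 4 * i0 + k * (4 * s) by ring, per_mul hper]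
      rw [e] at h1
      have h2 := hmono (i0 + k * s + 1) (k - 1)
      rw [show i0 + k * s + 1 + (k - 1) = i0 + k * (s + 1) by
        rw [Nat.mul_succ]; omega] at h2
      push_cast
      linarith
  obtain ⟨s, hs⟩ := exists_nat_gt (α⁻¹ / (B (c + 2 + 4 * i0) * α))
  have h1 := hgrow s
  have h2 : (x (c + 4 * (i0 + k * s)))⁻¹ ≤ α⁻¹ := inv_anti₀ hα0 (hα _)
  rw [div_lt_iff₀ (by positivity)] at hs
  linarith

/-- Lower bounds carried along the walk. -/
def Dom (x : ℕ → ℝ) (c : ℝ) (s : ℕ × ℝ × ℝ) : Prop :=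
  s.2.1 * (s.2.2 * c) ≤ (x s.1)⁻¹ ∧ s.2.2 * c ≤ (x (s.1 + 1))⁻¹

lemma Dom_w {B : ℕ → ℝ} (hB : ∀ n, 0 ≤ B n) {x : ℕ → ℝ} (hx : Sol B x) {c : ℝ} (hc : 0 ≤ c)
    {s : ℕ × ℝ × ℝ} (h0 : 0 ≤ s.2.1 ∧ 0 ≤ s.2.2) (h : Dom x c s) :
    s.2.2 * (s.2.1 / (1 + B s.1 * s.2.1)) * c ≤ x (s.1 + 2) := by
  obtain ⟨m, l, g⟩ := s
  obtain ⟨h1, h2⟩ := h
  obtain ⟨hl, hg⟩ := h0
  simp only at h1 h2 hl hg ⊢
  have hpos := hx.pos hB
  have hgc : 0 ≤ g * c := by positivity
  have e1 : x (m + 2) = H (B m) (x m)⁻¹ (x (m + 1))⁻¹ := by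
    rw [H_inv (hB m) (hpos m) (hpos (m + 1)), hx.2.2]
  rw [e1]
  calc g * (l / (1 + B m * l)) * c = l / (1 + B m * l) * (g * c) := by ring
    _ = H (B m) (l * (g * c)) (g * c) := (H_ray (hB m) hl hgc).symm
    _ ≤ _ := H_mono (hB m) (by positivity) h1 hgc h2

lemma Dom_step {B : ℕ → ℝ} (hB : ∀ n, 0 ≤ B n) {x : ℕ → ℝ} (hx : Sol B x) {c : ℝ} (hc : 0 ≤ c)
    {s : ℕ × ℝ × ℝ} (h0 : 0 ≤ s.2.1 ∧ 0 ≤ s.2.2) (h : Dom x c s) : Dom x c (step B s) := by
  have hw := Dom_w hB hx hc h0 h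
  obtain ⟨m, l, g⟩ := s
  obtain ⟨h1, h2⟩ := h
  obtain ⟨hl, hg⟩ := h0
  simp only at h1 h2 hl hg hw
  have hpos := hx.pos hB
  have e4 : (x (m + 4))⁻¹ = B (m + 2) * x (m + 3) + x (m + 2) := by
    rw [show m + 4 = m + 2 + 2 by ring, hx.2.2 (m + 2), one_div, inv_inv]
  have p1 := hpos (m + 1)
  have p3 := hpos (m + 3)
  have p4 := hpos (m + 4)
  have b1 := hB (m + 1)
  have b2 := hB (m + 2)
  have b3 := hB (m + 3)
  unfold step Dom
  simp only
  split_ifs with hz
  · simp only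
    have e3 : x (m + 3) = (x (m + 1))⁻¹ := by
      rw [show m + 3 = m + 1 + 2 by ring, hx.2.2 (m + 1), hz]; simp
    have e5 : (x (m + 4 + 1))⁻¹ = B (m + 3) * x (m + 4) + x (m + 3) := by
      rw [show m + 4 + 1 = m + 3 + 2 by ring, hx.2.2 (m + 3), one_div, inv_inv]
    constructor
    · rw [e4, e3]
      have := mul_le_mul_of_nonneg_left h2 b2
      have e : (B (m + 2) + l / (1 + B m * l)) * (g * c)
          = B (m + 2) * (g * c) + g * (l / (1 + B m * l)) * c := by ring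
      rw [e]
      linarith
    · rw [e5, e3]
      have : 0 ≤ B (m + 3) * x (m + 4) := by positivity
      linarith
  · simp only
    have e3 : (x (m + 3))⁻¹ = B (m + 1) * x (m + 2) + x (m + 1) := by
      rw [show m + 3 = m + 1 + 2 by ring, hx.2.2 (m + 1), one_div, inv_inv]
    constructor
    · rw [e3]
      have := mul_le_mul_of_nonneg_left hw b1
      linarith
    · rw [show m + 3 + 1 = m + 4 by ring, e4]
      have : 0 ≤ B (m + 2) * x (m + 3) := by positivity
      linarith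

lemma Dom_iter {B : ℕ → ℝ} (hB : ∀ n, 0 ≤ B n) {x : ℕ → ℝ} (hx : Sol B x) {c : ℝ} (hc : 0 ≤ c)
    {s : ℕ × ℝ × ℝ} (h0 : 0 ≤ s.2.1 ∧ 0 ≤ s.2.2) (h : Dom x c s) (i : ℕ) :
    Dom x c ((step B)^[i] s) := by
  induction i with
  | zero => exact h
  | succ i ih =>
    rw [Function.iterate_succ_apply']
    exact Dom_step hB hx hc (step_iter_nonneg hB h0 i) ih

/-- Strict comparison of two runs. -/
def Cmp (s s' : ℕ × ℝ × ℝ) : Prop :=
  s.1 = s'.1 ∧ 0 < s.2.1 ∧ s.2.1 ≤ s'.2.1 ∧ 0 < s.2.2 ∧ s.2.2 ≤ s'.2.2 ∧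
    (s.2.1 < s'.2.1 ∨ s.2.2 < s'.2.2)

lemma gam_mono {b l l' : ℝ} (hb : 0 ≤ b) (hl : 0 < l) (h : l ≤ l') :
    l / (1 + b * l) ≤ l' / (1 + b * l') := by
  have hl' : 0 < l' := hl.trans_le h
  rw [div_le_div_iff₀ (by positivity) (by positivity)]
  nlinarith

lemma gam_strict {b l l' : ℝ} (hb : 0 ≤ b) (hl : 0 < l) (h : l < l') :
    l / (1 + b * l) < l' / (1 + b * l') := by
  have hl' : 0 < l' := hl.trans h
  rw [div_lt_div_iff₀ (by positivity) (by positivity)]
  nlinarith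

lemma Cmp_step {B : ℕ → ℝ} (hB : ∀ n, 0 ≤ B n) {s s' : ℕ × ℝ × ℝ} (h : Cmp s s') :
    Cmp (step B s) (step B s') := by
  obtain ⟨m, l, g⟩ := s
  obtain ⟨m', l', g'⟩ := s'
  obtain ⟨h1, h2, h3, h4, h5, h6⟩ := h
  simp only at h1 h2 h3 h4 h5 h6
  subst h1
  have b0 := hB m
  have b1 := hB (m + 1)
  have b2 := hB (m + 2)
  have k1 := gam_mono b0 h2 h3
  have hp : 0 < l / (1 + B m * l) := by positivity
  unfold step Cmp
  simp only
  split_ifs with hz
  · refine ⟨rfl, by positivity, ?_, h4, h5, ?_⟩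
    · simp only
      linarith
    · simp only
      rcases h6 with h | h
      · left
        have := gam_strict b0 h2 h
        linarith
      · right; exact h
  · have b1' : 0 < B (m + 1) := lt_of_le_of_ne b1 (Ne.symm hz)
    refine ⟨rfl, b1', le_rfl, by positivity, ?_, Or.inr ?_⟩
    · simp only
      exact mul_le_mul h5 k1 hp.le (h4.le.trans h5)
    · simp only
      rcases h6 with h | h
      · have := gam_strict b0 h2 h
        calc g * (l / (1 + B m * l)) < g * (l' / (1 + B m * l')) :=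
              mul_lt_mul_of_pos_left this h4
          _ ≤ _ := mul_le_mul_of_nonneg_right h5 (hp.le.trans k1)
      · calc g * (l / (1 + B m * l)) < g' * (l / (1 + B m * l)) :=
              mul_lt_mul_of_pos_right h hp
          _ ≤ _ := mul_le_mul_of_nonneg_left k1 (h4.le.trans h5)

lemma Cmp_iter {B : ℕ → ℝ} (hB : ∀ n, 0 ≤ B n) {s s' : ℕ × ℝ × ℝ} (h : Cmp s s') (i : ℕ) :
    Cmp ((step B)^[i] s) ((step B)^[i] s') := by
  induction i with
  | zero => exact h
  | succ i ih =>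
    rw [Function.iterate_succ_apply', Function.iterate_succ_apply']
    exact Cmp_step hB ih

/-- Failure of (A). -/
theorem unbounded_A {B : ℕ → ℝ} (hB : ∀ n, 0 ≤ B n) {k : ℕ} (hk : 0 < k)
    (hper : ∀ n, B (n + k) = B n) (hcrit : ¬ CritA k B) {x : ℕ → ℝ} (hx : Sol B x) :
    ¬ ∃ M, ∀ n, x n ≤ M := by
  rintro ⟨M, hM⟩
  obtain ⟨α, hα0, hα⟩ := lower hB hk hper hx hM
  have hpos := hx.pos hB
  have hM0 : 0 < M := (hpos 0).trans_le (hM 0)
  unfold CritA at hcrit
  push Not at hcrit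
  obtain ⟨n, j, t, hn, -, hpj, hg1⟩ := hcrit
  have hbn : 0 < B (n + 1) := lt_of_le_of_ne (hB _) (Ne.symm hn)
  set δ : ℝ := α / M with hδ
  have hδ0 : 0 < δ := by positivity
  -- the run with the slightly larger slope
  have hcmp : Cmp (n + 3, B (n + 1), 1) (n + 3, B (n + 1) + δ, 1) :=
    ⟨rfl, hbn, by simp only; linarith, one_pos, le_rfl, Or.inl (by simp only; linarith)⟩
  have hcj := Cmp_iter hB hcmp (j + 1)
  have hpj' : ((step B)^[j] (n + 3, B (n + 1) + δ, 1)).1 = n + k * t := by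
    rw [step_iter_fst] at hpj ⊢
    exact hpj
  have hbt : B (n + k * t + 1) = B (n + 1) := by
    rw [show n + k * t + 1 = n + 1 + k * t by ring, per_mul hper]
  set g' : ℝ := ((step B)^[j + 1] (n + 3, B (n + 1) + δ, 1)).2.2 with hg'
  have hgt : 1 < g' := by
    have s1 : ((step B)^[j + 1] (n + 3, B (n + 1), 1)).2.1 = B (n + 1) := by
      rw [Function.iterate_succ_apply', step, hpj, hbt, if_neg hn]
    have s2 : ((step B)^[j + 1] (n + 3, B (n + 1) + δ, 1)).2.1 = B (n + 1) := by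
      rw [Function.iterate_succ_apply', step, hpj', hbt, if_neg hn]
    rcases hcj.2.2.2.2.2 with h | h
    · rw [s1, s2] at h
      exact absurd h (lt_irrefl _)
    · exact hg1.trans_lt h
  have hg'0 : 0 < g' := one_pos.trans hgt
  -- the state after a three-step
  have hthree : ∀ r c, c ≤ x (n + k * r + 2) →
      Dom x c (n + 3 + k * r, B (n + 1) + δ, 1) := by
    intro r c hc
    have p1 := hpos (n + k * r + 1)
    have p2 := hpos (n + k * r + 2)
    have p3 := hpos (n + k * r + 3)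
    have b2 := hB (n + k * r + 2)
    have hbr : B (n + k * r + 1) = B (n + 1) := by
      rw [show n + k * r + 1 = n + 1 + k * r by ring, per_mul hper]
    have e3 : (x (n + k * r + 3))⁻¹ = B (n + 1) * x (n + k * r + 2) + x (n + k * r + 1) := by
      rw [show n + k * r + 3 = n + k * r + 1 + 2 by ring, hx.2.2 (n + k * r + 1), one_div,
        inv_inv, hbr]
    have e4 : (x (n + k * r + 4))⁻¹
        = B (n + k * r + 2) * x (n + k * r + 3) + x (n + k * r + 2) := by
      rw [show n + k * r + 4 = n + k * r + 2 + 2 by ring, hx.2.2 (n + k * r + 2), one_div,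
        inv_inv]
    have hδx : δ * x (n + k * r + 2) ≤ x (n + k * r + 1) := by
      calc δ * x (n + k * r + 2) ≤ δ * M := mul_le_mul_of_nonneg_left (hM _) hδ0.le
        _ = α := by rw [hδ]; field_simp
        _ ≤ _ := hα _
    constructor
    · simp only
      rw [one_mul, show n + 3 + k * r = n + k * r + 3 by ring, e3]
      have := mul_le_mul_of_nonneg_left hc (show 0 ≤ B (n + 1) + δ by linarith)
      linarith
    · simp only
      rw [one_mul, show n + 3 + k * r + 1 = n + k * r + 4 by ring, e4]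
      have : 0 ≤ B (n + k * r + 2) * x (n + k * r + 3) := by positivity
      linarith
  have hn0 : (0 : ℝ) ≤ B (n + 1) + δ ∧ (0 : ℝ) ≤ 1 := ⟨by linarith, zero_le_one⟩
  have hind : ∀ r : ℕ, g' ^ r * x (n + 2) ≤ x (n + k * (t * r) + 2) := by
    intro r
    induction r with
    | zero => simp
    | succ r ih =>
      have hc0 : 0 ≤ g' ^ r * x (n + 2) := by
        have := hpos (n + 2)
        positivity
      have h1 := hthree (t * r) _ ih
      have h2 := Dom_iter hB hx hc0 (s := sh (k * (t * r)) (n + 3, B (n + 1) + δ, 1)) hn0 h1 j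
      have h3 := Dom_w hB hx hc0 (step_iter_nonneg hB
        (s := sh (k * (t * r)) (n + 3, B (n + 1) + δ, 1)) hn0 j) h2
      rw [step_iter_sh hper] at h3
      simp only [sh] at h3
      rw [hpj'] at h3
      have e5 : g' = ((step B)^[j] (n + 3, B (n + 1) + δ, 1)).2.2 *
          (((step B)^[j] (n + 3, B (n + 1) + δ, 1)).2.1 /
            (1 + B (n + k * t) * ((step B)^[j] (n + 3, B (n + 1) + δ, 1)).2.1)) := by
        rw [hg', Function.iterate_succ_apply', step, hpj', hbt, if_neg hn]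
      rw [show n + k * t + k * (t * r) = n + k * t + k * (t * r) by rfl, per_mul hper, ← e5] at h3
      rw [pow_succ, show n + k * (t * (r + 1)) + 2 = n + k * t + k * (t * r) + 2 by ring]
      calc g' ^ r * g' * x (n + 2) = g' * (g' ^ r * x (n + 2)) := by ring
        _ ≤ _ := h3
  obtain ⟨r, hr⟩ := pow_unbounded_of_one_lt (M / x (n + 2)) hgt
  have h1 := hind r
  have h2 := hM (n + k * (t * r) + 2)
  rw [div_lt_iff₀ (hpos _)] at hr
  linarith

end Pool.Agent.X29.RB
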