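import Pool.Agent.X29.RB.Stab

namespace Pool.Agent.X29.RB

/-- One step of the walk; a state is (position, slope, gain). -/
noncomputable def step (B : ℕ → ℝ) (s : ℕ × ℝ × ℝ) : ℕ × ℝ × ℝ :=
  if B (s.1 + 1) = 0 then
    (s.1 + 4, B (s.1 + 2) + s.2.1 / (1 + B s.1 * s.2.1), s.2.2)
  else
    (s.1 + 3, B (s.1 + 1), s.2.2 * (s.2.1 / (1 + B s.1 * s.2.1)))

/-- Condition (A): every closed run has gain less than one. -/
def CritA (k : ℕ) (B : ℕ → ℝ) : Prop :=
  ∀ n j t, B (n + 1) ≠ 0 → j < k → ((step B)^[j] (n + 3, B (n + 1), 1)).1 = n + k * t →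
    ((step B)^[j + 1] (n + 3, B (n + 1), 1)).2.2 < 1

/-- Condition (B): if the coefficients vanish on a class modulo 4, they vanish on the class of
the same parity too. -/
def CritB (B : ℕ → ℝ) : Prop :=
  ∀ c, (∀ i, B (c + 4 * i) = 0) → ∀ i, B (c + 2 + 4 * i) = 0

/-- Positions of the walk. -/
noncomputable def sp (B : ℕ → ℝ) (m : ℕ) : ℕ := if B (m + 1) = 0 then m + 4 else m + 3

lemma step_fst (B : ℕ → ℝ) (s : ℕ × ℝ × ℝ) : (step B s).1 = sp B s.1 := by
  unfold step sp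
  split_ifs <;> rfl

lemma step_iter_fst (B : ℕ → ℝ) (s : ℕ × ℝ × ℝ) (i : ℕ) :
    ((step B)^[i] s).1 = (sp B)^[i] s.1 := by
  induction i with
  | zero => rfl
  | succ i ih => rw [Function.iterate_succ_apply', Function.iterate_succ_apply', step_fst, ih]

/-- One step of the homogeneous dynamics at two nonpositive coordinates. -/
noncomputable def T (B : ℕ → ℝ) (s : ℕ × ℝ × ℝ) : ℕ × ℝ × ℝ :=
  if B (s.1 + 1) = 0 then
    (s.1 + 4, B (s.1 + 2) * s.2.2 + H (B s.1) s.2.1 s.2.2, s.2.2)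
  else
    (s.1 + 3, B (s.1 + 1) * H (B s.1) s.2.1 s.2.2, H (B s.1) s.2.1 s.2.2)

lemma T_fst (B : ℕ → ℝ) (s : ℕ × ℝ × ℝ) : (T B s).1 = sp B s.1 := by
  unfold T sp
  split_ifs <;> rfl

lemma T_iter_fst (B : ℕ → ℝ) (s : ℕ × ℝ × ℝ) (i : ℕ) :
    ((T B)^[i] s).1 = (sp B)^[i] s.1 := by
  induction i with
  | zero => rfl
  | succ i ih => rw [Function.iterate_succ_apply', Function.iterate_succ_apply', T_fst, ih]

/-- The orbit of `ξ` passes through the state `s`. -/
def At (B : ℕ → ℝ) (n : ℕ) (ξ : ℝ × ℝ) (s : ℕ × ℝ × ℝ) : Prop :=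
  ∃ j, s.1 = n + j ∧ Y B n ξ j = (-s.2.1, -s.2.2) ∧ 0 ≤ s.2.1 ∧ 0 ≤ s.2.2

lemma G_nn {b u v : ℝ} (hu : 0 ≤ u) (hv : 0 ≤ v) : G b (-u) (-v) = H b u v := by
  unfold G
  rw [neg_neg, neg_neg, max_eq_left hu, max_eq_left hv, max_eq_right (by linarith),
    max_eq_right (by linarith)]
  ring

lemma G_np {b v w : ℝ} (hv : 0 ≤ v) (hw : 0 ≤ w) : G b (-v) w = H b v 0 - b * w := by
  unfold G
  rw [neg_neg, max_eq_left hv, max_eq_right (by linarith), max_eq_left hw,
    max_eq_right (by linarith)]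
  ring

lemma G_pn {b w z : ℝ} (hw : 0 ≤ w) (hz : 0 ≤ z) : G b w (-z) = -w := by
  unfold G
  rw [neg_neg, max_eq_right (by linarith), max_eq_left hz, max_eq_right (by linarith),
    max_eq_left hw, H_zero_left]
  ring

lemma G_pp {b w v : ℝ} (hw : 0 ≤ w) (hv : 0 ≤ v) : G b w v = -(b * v + w) := by
  unfold G
  rw [max_eq_right (by linarith), max_eq_right (by linarith), max_eq_left hv,
    max_eq_left hw, H_zero_left]
  ring

lemma At_T {B : ℕ → ℝ} (hB : ∀ n, 0 ≤ B n) {n : ℕ} {ξ : ℝ × ℝ} {s : ℕ × ℝ × ℝ}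
    (h : At B n ξ s) : At B n ξ (T B s) := by
  obtain ⟨m, u, v⟩ := s
  obtain ⟨j, h1, h2, h3, h4⟩ := h
  simp only at h1 h2 h3 h4
  subst h1
  have hw : 0 ≤ H (B (n + j)) u v := H_nonneg (hB _) h3 h4
  have y1 : Y B n ξ (j + 1) = (-v, H (B (n + j)) u v) := by
    simp only [Y, h2, G_nn h3 h4]
  unfold T
  simp only
  split_ifs with h0
  · have y2 : Y B n ξ (j + 2) = (H (B (n + j)) u v, v) := by
      change ((Y B n ξ (j + 1)).2, G (B (n + (j + 1))) (Y B n ξ (j + 1)).1 (Y B n ξ (j + 1)).2) = _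
      rw [y1]
      simp only
      rw [G_np h4 hw, show n + (j + 1) = n + j + 1 by ring, h0, H_zero]
      simp
    have hb2 := hB (n + j + 2)
    have hz : 0 ≤ B (n + j + 2) * v + H (B (n + j)) u v := by positivity
    have y3 : Y B n ξ (j + 3) = (v, -(B (n + j + 2) * v + H (B (n + j)) u v)) := by
      change ((Y B n ξ (j + 2)).2, G (B (n + (j + 2))) (Y B n ξ (j + 2)).1 (Y B n ξ (j + 2)).2) = _
      rw [y2]
      simp only
      rw [G_pp hw h4, show n + (j + 2) = n + j + 2 by ring]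
    have y4 : Y B n ξ (j + 4) = (-(B (n + j + 2) * v + H (B (n + j)) u v), -v) := by
      change ((Y B n ξ (j + 3)).2, G (B (n + (j + 3))) (Y B n ξ (j + 3)).1 (Y B n ξ (j + 3)).2) = _
      rw [y3]
      simp only
      rw [G_pn h4 hz]
    exact ⟨j + 4, by simp only; ring, y4, hz, h4⟩
  · have hb1 := hB (n + j + 1)
    have hz : 0 ≤ B (n + j + 1) * H (B (n + j)) u v := by positivity
    have y2 : Y B n ξ (j + 2) = (H (B (n + j)) u v, -(B (n + j + 1) * H (B (n + j)) u v)) := by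
      change ((Y B n ξ (j + 1)).2, G (B (n + (j + 1))) (Y B n ξ (j + 1)).1 (Y B n ξ (j + 1)).2) = _
      rw [y1]
      simp only
      rw [G_np h4 hw, show n + (j + 1) = n + j + 1 by ring, H_zero_right h0]
      simp
    have y3 : Y B n ξ (j + 3)
        = (-(B (n + j + 1) * H (B (n + j)) u v), -H (B (n + j)) u v) := by
      change ((Y B n ξ (j + 2)).2, G (B (n + (j + 2))) (Y B n ξ (j + 2)).1 (Y B n ξ (j + 2)).2) = _
      rw [y2]
      simp only
      rw [G_pn hw hz]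
    exact ⟨j + 3, by simp only; ring, y3, hz, hw⟩

lemma At_T_iter {B : ℕ → ℝ} (hB : ∀ n, 0 ≤ B n) {n : ℕ} {ξ : ℝ × ℝ} {s : ℕ × ℝ × ℝ}
    (h : At B n ξ s) (i : ℕ) : At B n ξ ((T B)^[i] s) := by
  induction i with
  | zero => exact h
  | succ i ih => rw [Function.iterate_succ_apply']; exact At_T hB ih

lemma reach {B : ℕ → ℝ} (hB : ∀ n, 0 ≤ B n) (n : ℕ) (ξ : ℝ × ℝ) : ∃ s, At B n ξ s := by
  -- a pair `(w ≥ 0, -z ≤ 0)` leads to a state in one step
  have pn : ∀ j w z, 0 ≤ w → 0 ≤ z → Y B n ξ j = (w, -z) → ∃ s, At B n ξ s := by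
    intro j w z hw hz hy
    refine ⟨(n + (j + 1), z, w), j + 1, rfl, ?_, hz, hw⟩
    change ((Y B n ξ j).2, G (B (n + j)) (Y B n ξ j).1 (Y B n ξ j).2) = _
    rw [hy]
    simp only
    rw [G_pn hw hz]
  have pp : ∀ j w z, 0 ≤ w → 0 ≤ z → Y B n ξ j = (w, z) → ∃ s, At B n ξ s := by
    intro j w z hw hz hy
    have hb := hB (n + j)
    refine pn (j + 1) z (B (n + j) * z + w) hz (by positivity) ?_
    change ((Y B n ξ j).2, G (B (n + j)) (Y B n ξ j).1 (Y B n ξ j).2) = _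
    rw [hy]
    simp only
    rw [G_pp hw hz]
  obtain ⟨p, q⟩ := ξ
  rcases le_total 0 p with hp | hp
  · rcases le_total 0 q with hq | hq
    · exact pp 0 p q hp hq rfl
    · exact pn 0 p (-q) hp (by linarith) (by simp [Y])
  · rcases le_total 0 q with hq | hq
    · have y1 : Y B n (p, q) 1 = (q, H (B n) (-p) 0 - B n * q) := by
        change (q, G (B (n + 0)) p q) = _
        have := G_np (b := B n) (v := -p) (w := q) (by linarith) hq
        rw [neg_neg] at this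
        rw [add_zero, this]
      by_cases h0 : B n = 0
      · rw [h0, H_zero] at y1
        exact pp 1 q (-p) hq (by linarith) (by rw [y1]; simp)
      · rw [H_zero_right h0] at y1
        have := hB n
        exact pn 1 q (B n * q) hq (by positivity) (by rw [y1]; simp)
    · exact ⟨(n, -p, -q), 0, by simp, by simp [Y], by simpa using hp, by simpa using hq⟩

/-- On rays the homogeneous dynamics is the walk. -/
lemma T_ray {B : ℕ → ℝ} (hB : ∀ n, 0 ≤ B n) {c : ℝ} (hc : 0 ≤ c) (s : ℕ × ℝ × ℝ)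
    (hl : 0 ≤ s.2.1) (hg : 0 ≤ s.2.2) :
    T B (s.1, s.2.1 * (s.2.2 * c), s.2.2 * c)
      = ((step B s).1, (step B s).2.1 * ((step B s).2.2 * c), (step B s).2.2 * c) := by
  obtain ⟨m, l, g⟩ := s
  simp only at hl hg ⊢
  have hr := H_ray (b := B m) (l := l) (v := g * c) (hB m) hl (by positivity)
  unfold T step
  simp only [hr]
  split_ifs
  · refine Prod.ext rfl (Prod.ext ?_ rfl)
    simp only
    ring
  · refine Prod.ext rfl (Prod.ext ?_ ?_)
    · simp only
      ring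
    · simp only
      ring

lemma step_nonneg {B : ℕ → ℝ} (hB : ∀ n, 0 ≤ B n) {s : ℕ × ℝ × ℝ}
    (h : 0 ≤ s.2.1 ∧ 0 ≤ s.2.2) : 0 ≤ (step B s).2.1 ∧ 0 ≤ (step B s).2.2 := by
  obtain ⟨m, l, g⟩ := s
  obtain ⟨hl, hg⟩ := h
  simp only at hl hg
  have h0 := hB m
  have h1 := hB (m + 1)
  have h2 := hB (m + 2)
  unfold step
  simp only
  split_ifs
  · exact ⟨by positivity, hg⟩
  · exact ⟨h1, by positivity⟩

lemma step_iter_nonneg {B : ℕ → ℝ} (hB : ∀ n, 0 ≤ B n) {s : ℕ × ℝ × ℝ}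
    (h : 0 ≤ s.2.1 ∧ 0 ≤ s.2.2) (i : ℕ) :
    0 ≤ ((step B)^[i] s).2.1 ∧ 0 ≤ ((step B)^[i] s).2.2 := by
  induction i with
  | zero => exact h
  | succ i ih => rw [Function.iterate_succ_apply']; exact step_nonneg hB ih

lemma T_iter_ray {B : ℕ → ℝ} (hB : ∀ n, 0 ≤ B n) {c : ℝ} (hc : 0 ≤ c) (s : ℕ × ℝ × ℝ)
    (h : 0 ≤ s.2.1 ∧ 0 ≤ s.2.2) (i : ℕ) :
    (T B)^[i] (s.1, s.2.1 * (s.2.2 * c), s.2.2 * c)
      = (((step B)^[i] s).1, ((step B)^[i] s).2.1 * (((step B)^[i] s).2.2 * c),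
        ((step B)^[i] s).2.2 * c) := by
  induction i with
  | zero => rfl
  | succ i ih =>
    have h2 := step_iter_nonneg hB h i
    rw [Function.iterate_succ_apply', ih, T_ray hB hc _ h2.1 h2.2, Function.iterate_succ_apply']

lemma per_mul {B : ℕ → ℝ} {k : ℕ} (hper : ∀ n, B (n + k) = B n) (m t : ℕ) :
    B (m + k * t) = B m := by
  induction t with
  | zero => simp
  | succ t ih => rw [show m + k * (t + 1) = m + k * t + k by ring, hper, ih]

lemma sp_per {B : ℕ → ℝ} {k : ℕ} (hper : ∀ n, B (n + k) = B n) (m t : ℕ) :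
    sp B (m + k * t) = sp B m + k * t := by
  unfold sp
  rw [show m + k * t + 1 = m + 1 + k * t by ring, per_mul hper]
  split_ifs <;> ring

lemma sp_iter_per {B : ℕ → ℝ} {k : ℕ} (hper : ∀ n, B (n + k) = B n) (m t i : ℕ) :
    (sp B)^[i] (m + k * t) = (sp B)^[i] m + k * t := by
  induction i with
  | zero => rfl
  | succ i ih =>
    rw [Function.iterate_succ_apply', Function.iterate_succ_apply', ih, sp_per hper]

/-- Shift of a walk state. -/
def sh (a : ℕ) (s : ℕ × ℝ × ℝ) : ℕ × ℝ × ℝ := (s.1 + a, s.2.1, s.2.2)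

lemma step_sh {B : ℕ → ℝ} {k : ℕ} (hper : ∀ n, B (n + k) = B n) (t : ℕ) (s : ℕ × ℝ × ℝ) :
    step B (sh (k * t) s) = sh (k * t) (step B s) := by
  obtain ⟨m, l, g⟩ := s
  unfold step sh
  simp only
  rw [show m + k * t + 1 = m + 1 + k * t by ring, show m + k * t + 2 = m + 2 + k * t by ring,
    per_mul hper, per_mul hper, per_mul hper]
  split_ifs
  · refine Prod.ext ?_ rfl
    simp only
    ring
  · refine Prod.ext ?_ rfl
    simp only
    ring

lemma step_iter_sh {B : ℕ → ℝ} {k : ℕ} (hper : ∀ n, B (n + k) = B n) (t : ℕ) (s : ℕ × ℝ × ℝ)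
    (i : ℕ) : (step B)^[i] (sh (k * t) s) = sh (k * t) ((step B)^[i] s) := by
  induction i with
  | zero => rfl
  | succ i ih =>
    rw [Function.iterate_succ_apply', Function.iterate_succ_apply', ih, step_sh hper]

lemma sp_ge (B : ℕ → ℝ) (m : ℕ) : m + 3 ≤ sp B m := by
  unfold sp
  split_ifs <;> omega

lemma sp_iter_ge (B : ℕ → ℝ) (m i : ℕ) : m + 3 * i ≤ (sp B)^[i] m := by
  induction i with
  | zero => simp
  | succ i ih =>
    rw [Function.iterate_succ_apply']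
    have := sp_ge B ((sp B)^[i] m)
    omega

/-- Without a class modulo four of zeros the walk makes three-steps again and again. -/
lemma exists_three {B : ℕ → ℝ} (hno : ∀ m, ∃ i, B (m + 1 + 4 * i) ≠ 0) (m : ℕ) :
    ∃ a, B ((sp B)^[a] m + 1) ≠ 0 := by
  by_contra hcon
  push Not at hcon
  have : ∀ a, (sp B)^[a] m = m + 4 * a := by
    intro a
    induction a with
    | zero => simp
    | succ a ih =>
      rw [Function.iterate_succ_apply', sp, if_pos (hcon a), ih]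
      ring
  obtain ⟨i, hi⟩ := hno m
  apply hi
  have := hcon i
  rwa [‹∀ a, (sp B)^[a] m = m + 4 * a› i, show m + 4 * i + 1 = m + 1 + 4 * i by ring] at this

/-- A closed walk through a position with a three-step. -/
lemma exists_cycle {B : ℕ → ℝ} {k : ℕ} (hk : 0 < k) (hper : ∀ n, B (n + k) = B n)
    (hno : ∀ m, ∃ i, B (m + 1 + 4 * i) ≠ 0) (m0 : ℕ) :
    ∃ i J t, 1 ≤ J ∧ J ≤ k ∧ B ((sp B)^[i] m0 + 1) ≠ 0 ∧
      (sp B)^[J] ((sp B)^[i] m0) = (sp B)^[i] m0 + k * t := by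
  obtain ⟨a, ha, b, hb, hne, hab⟩ := Finset.exists_ne_map_eq_of_card_lt_of_maps_to
    (s := Finset.range (k + 1)) (t := Finset.range k) (by simp)
    (f := fun i => (sp B)^[i] m0 % k) (by
      intro i _
      simp only [Finset.coe_range, Set.mem_Iio]
      exact Nat.mod_lt _ hk)
  wlog hlt : a < b generalizing a b
  · exact this b hb a ha hne.symm hab.symm (by omega)
  rw [Finset.mem_range] at ha hb
  obtain ⟨J, rfl⟩ := Nat.exists_eq_add_of_lt hlt
  set n1 := (sp B)^[a] m0 with hn1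
  have e1 : (sp B)^[a + J + 1] m0 = (sp B)^[J + 1] n1 := by
    rw [hn1, ← Function.iterate_add_apply]
    congr 1
    ring_nf
  have e2 : ∃ t, (sp B)^[J + 1] n1 = n1 + k * t := by
    have h1 := sp_iter_ge B n1 (J + 1)
    have h2 : n1 % k = (sp B)^[J + 1] n1 % k := by rw [← e1]; exact hab
    obtain ⟨t, ht⟩ := (Nat.modEq_iff_dvd' (n := k) (a := n1) (b := (sp B)^[J + 1] n1)
      (by omega)).mp h2
    exact ⟨t, by omega⟩
  obtain ⟨t, ht⟩ := e2
  obtain ⟨c, hc⟩ := exists_three hno n1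
  refine ⟨c + a, J + 1, t, by omega, by omega, ?_, ?_⟩
  · rw [Function.iterate_add_apply]
    exact hc
  · have e3 : (sp B)^[c + a] m0 = (sp B)^[c] n1 := by rw [Function.iterate_add_apply]
    rw [e3, ← Function.iterate_add_apply, add_comm (J + 1) c,
      Function.iterate_add_apply, ht, sp_iter_per hper]

/-- Every orbit of the homogeneous system tends to zero. -/
theorem contract {B : ℕ → ℝ} (hB : ∀ n, 0 ≤ B n) {k : ℕ} (hk : 0 < k)
    (hper : ∀ n, B (n + k) = B n) (hno : ∀ m, ∃ i, B (m + 1 + 4 * i) ≠ 0) (hA : CritA k B)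
    (n : ℕ) (ξ : ℝ × ℝ) : ∃ j, ‖Y B n ξ j‖ < 1 / 2 := by
  obtain ⟨s0, hs0⟩ := reach hB n ξ
  obtain ⟨i, J, t, hJ1, hJk, h3, hcyc⟩ := exists_cycle hk hper hno s0.1
  obtain ⟨j, rfl⟩ : ∃ j, J = j + 1 := ⟨J - 1, by omega⟩
  set n' := (sp B)^[i] s0.1 with hn'
  have hAt := At_T hB (At_T_iter hB hs0 i)
  -- the state after the three-step
  have hst : ∃ c : ℝ, 0 ≤ c ∧ At B n ξ (n' + 3, B (n' + 1) * (1 * c), 1 * c) := by
    have h1 := At_T_iter hB hs0 i
    obtain ⟨j1, _, _, hu, hv⟩ := h1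
    have hpos : ((T B)^[i] s0).1 = n' := T_iter_fst B s0 i
    refine ⟨H (B ((T B)^[i] s0).1) ((T B)^[i] s0).2.1 ((T B)^[i] s0).2.2,
      H_nonneg (hB _) hu hv, ?_⟩
    rw [T, hpos, if_neg h3] at hAt
    rw [hpos, one_mul]
    exact hAt
  obtain ⟨c, hc, hAt2⟩ := hst
  have hb1 := hB (n' + 1)
  set g : ℝ := ((step B)^[j + 1] (n' + 3, B (n' + 1), 1)).2.2 with hg
  have hn0 : (0 : ℝ) ≤ B (n' + 1) ∧ (0 : ℝ) ≤ 1 := ⟨hb1, zero_le_one⟩
  have hg0 : 0 ≤ g := (step_iter_nonneg hB (s := (n' + 3, B (n' + 1), 1)) hn0 (j + 1)).2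
  have hsp3 : sp B n' = n' + 3 := by rw [sp, if_neg h3]
  have hposj : ((step B)^[j] (n' + 3, B (n' + 1), 1)).1 = n' + k * t := by
    rw [step_iter_fst]
    simp only
    rw [← hsp3, ← Function.iterate_succ_apply]
    exact hcyc
  have hg1 : g < 1 := hA n' j t h3 (by omega) hposj
  -- the state after the closed run
  have hrun : (step B)^[j + 1] (n' + 3, B (n' + 1), 1) = (n' + 3 + k * t, B (n' + 1), g) := by
    refine Prod.ext ?_ (Prod.ext ?_ rfl)
    · rw [step_iter_fst]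
      simp only
      rw [Function.iterate_succ_apply', ← step_iter_fst B (n' + 3, B (n' + 1), 1) j, hposj,
        sp_per hper, hsp3]
    · rw [Function.iterate_succ_apply', step, hposj,
        show n' + k * t + 1 = n' + 1 + k * t by ring, per_mul hper, if_neg h3]
  have hall : ∀ r, ∃ a, At B n ξ (n' + 3 + k * a, B (n' + 1) * (g ^ r * c), g ^ r * c) := by
    intro r
    induction r with
    | zero => exact ⟨0, by simpa using hAt2⟩
    | succ r ih =>
      obtain ⟨a, ha⟩ := ih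
      have h1 := At_T_iter hB ha (j + 1)
      have h2 := T_iter_ray hB (c := g ^ r * c) (by positivity)
        (sh (k * a) (n' + 3, B (n' + 1), 1)) hn0 (j + 1)
      rw [step_iter_sh hper, hrun] at h2
      simp only [sh] at h2
      rw [one_mul] at h2
      rw [h2] at h1
      refine ⟨t + a, ?_⟩
      rw [show g ^ (r + 1) * c = g * (g ^ r * c) by rw [pow_succ]; ring,
        show n' + 3 + k * (t + a) = n' + 3 + k * t + k * a by ring]
      exact h1
  -- smallness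
  obtain ⟨r, hr⟩ : ∃ r : ℕ, (B (n' + 1) + 1) * (g ^ r * c) < 1 / 2 := by
    have hlim : Filter.Tendsto (fun r : ℕ => (B (n' + 1) + 1) * (g ^ r * c)) Filter.atTop
        (nhds ((B (n' + 1) + 1) * (0 * c))) :=
      ((tendsto_pow_atTop_nhds_zero_of_lt_one hg0 hg1).mul_const c).const_mul _
    rw [zero_mul, mul_zero] at hlim
    obtain ⟨r, hr⟩ := (hlim.eventually (gt_mem_nhds (show (0 : ℝ) < 1 / 2 by norm_num))).exists
    exact ⟨r, hr⟩
  obtain ⟨a, j2, _, hy, hu, hv⟩ := hall r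
  simp only at hy hu hv
  refine ⟨j2, ?_⟩
  rw [hy, Prod.norm_def]
  simp only [Real.norm_eq_abs, abs_neg]
  rw [abs_of_nonneg hu, abs_of_nonneg hv]
  apply max_lt
  · nlinarith
  · nlinarith

end Pool.Agent.X29.RB
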